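import Pool.Agent.EGF.StmtsQ

/-! EGF, row CN8: the count (helper38). -/

set_option autoImplicit false

open Finset

namespace Pool.Agent.EGF.H38

open Pool.Agent.EGF

theorem cn8 : Cn8Stmt := by
  intro V _ k c C1 A B A' B' A1 B1 A2 B2 x x' y y' w w' z z' e a b a1 b1 g hsym hAB h hA1 hB1 h'
  have hw := h.cA w (hA1 h'.hx)
  have hw' := h.cA w' (hA1 h'.hx')
  have hz := h.cB z (hB1 h'.hy)
  have hz' := h.cB z' (hB1 h'.hy')
  obtain ⟨w1, w2, w3, w4, w5, w6⟩ := hw
  obtain ⟨v1, v2, v3, v4, v5, v6⟩ := hw'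
  obtain ⟨z1, z2, z3, z4, z5, z6⟩ := hz
  obtain ⟨t1, t2, t3, t4, t5, t6⟩ := hz'
  have mw : w ∈ A := h.sA (hA1 h'.hx)
  have mw' : w' ∈ A := h.sA (hA1 h'.hx')
  have mz : z ∈ B := h.sB (hB1 h'.hy)
  have mz' : z' ∈ B := h.sB (hB1 h'.hy')
  have dis : ∀ u v, u ∈ A → v ∈ B → u ≠ v := fun u v hu hv huv =>
    (Finset.disjoint_left.1 hAB hu) (huv ▸ hv)
  refine ⟨{x, x', w, w', y, y', z, z'}, ?_, ?_, ?_⟩
  · intro u hu
    simp only [mem_insert, mem_singleton] at hu
    rw [mem_union]
    rcases hu with rfl | rfl | rfl | rfl | rfl | rfl | rfl | rfl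
    · exact Or.inl h.hx
    · exact Or.inl h.hx'
    · exact Or.inl mw
    · exact Or.inl mw'
    · exact Or.inr h.hy
    · exact Or.inr h.hy'
    · exact Or.inr mz
    · exact Or.inr mz'
  · have n1 := h.nx
    have n2 := h.ny
    have n3 := h'.nx
    have n4 := h'.ny
    have d1 := dis x y h.hx h.hy
    have d2 := dis x y' h.hx h.hy'
    have d3 := dis x z h.hx mz
    have d4 := dis x z' h.hx mz'
    have d5 := dis x' y h.hx' h.hy
    have d6 := dis x' y' h.hx' h.hy'
    have d7 := dis x' z h.hx' mz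
    have d8 := dis x' z' h.hx' mz'
    have d9 := dis w y mw h.hy
    have d10 := dis w y' mw h.hy'
    have d11 := dis w z mw mz
    have d12 := dis w z' mw mz'
    have d13 := dis w' y mw' h.hy
    have d14 := dis w' y' mw' h.hy'
    have d15 := dis w' z mw' mz
    have d16 := dis w' z' mw' mz'
    rw [card_insert_of_notMem, card_insert_of_notMem, card_insert_of_notMem,
      card_insert_of_notMem, card_insert_of_notMem, card_insert_of_notMem,
      card_insert_of_notMem, card_singleton]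
    all_goals simp only [mem_insert, mem_singleton, not_or]
    · exact n4
    · exact ⟨z2.symm, t2.symm⟩
    · exact ⟨n2, z1.symm, t1.symm⟩
    · exact ⟨d13, d14, d15, d16⟩
    · exact ⟨n3, d9, d10, d11, d12⟩
    · exact ⟨w2.symm, v2.symm, d5, d6, d7, d8⟩
    · exact ⟨n1, w1.symm, v1.symm, d1, d2, d3, d4⟩
  · set S : Finset (Fin k) := {c x x', c w w', a, b, e, g} with hS
    have r : ∀ {u v}, c u v ∈ S → c v u ∈ S := fun {u v} h => by rw [hsym v u]; exact h
    have m1 : c x x' ∈ S := by simp [hS]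
    have m2 : c w w' ∈ S := by simp [hS]
    have ma : a ∈ S := by simp [hS]
    have mb : b ∈ S := by simp [hS]
    have me : e ∈ S := by simp [hS]
    have mg : g ∈ S := by simp [hS]
    have m3 : c y y' ∈ S := h.eq ▸ m1
    have m4 : c z z' ∈ S := h'.eq ▸ m2
    have a1' : c x w ∈ S := by rw [w3]; exact ma
    have a2' : c x' w ∈ S := by rw [w4]; exact ma
    have a3' : c y w ∈ S := by rw [w5]; exact me
    have a4' : c y' w ∈ S := by rw [w6]; exact me
    have b1' : c x w' ∈ S := by rw [v3]; exact ma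
    have b2' : c x' w' ∈ S := by rw [v4]; exact ma
    have b3' : c y w' ∈ S := by rw [v5]; exact me
    have b4' : c y' w' ∈ S := by rw [v6]; exact me
    have c1' : c y z ∈ S := by rw [z3]; exact mb
    have c2' : c y' z ∈ S := by rw [z4]; exact mb
    have c3' : c x z ∈ S := by rw [z5]; exact me
    have c4' : c x' z ∈ S := by rw [z6]; exact me
    have k1' : c y z' ∈ S := by rw [t3]; exact mb
    have k2' : c y' z' ∈ S := by rw [t4]; exact mb
    have k3' : c x z' ∈ S := by rw [t5]; exact me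
    have k4' : c x' z' ∈ S := by rw [t6]; exact me
    have f0 : c x y ∈ S := by rw [h.f0]; exact me
    have f1 : c x y' ∈ S := by rw [h.f1]; exact me
    have f2 : c x' y ∈ S := by rw [h.f2]; exact me
    have f3 : c x' y' ∈ S := by rw [h.f3]; exact mg
    have g0 : c w z ∈ S := by rw [h'.f0]; exact me
    have g1 : c w z' ∈ S := by rw [h'.f1]; exact me
    have g2 : c w' z ∈ S := by rw [h'.f2]; exact me
    have g3 : c w' z' ∈ S := by rw [h'.f3]; exact mg
    have key : ∀ p1 p2 : V, (p1 = x ∨ p1 = x' ∨ p1 = w ∨ p1 = w' ∨ p1 = y ∨ p1 = y' ∨ p1 = z ∨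
        p1 = z') → (p2 = x ∨ p2 = x' ∨ p2 = w ∨ p2 = w' ∨ p2 = y ∨ p2 = y' ∨ p2 = z ∨ p2 = z') →
        p1 ≠ p2 → c p1 p2 ∈ S := by
      intro p1 p2 q1 q2 hne
      rcases q1 with q1 | q1 | q1 | q1 | q1 | q1 | q1 | q1 <;>
        rcases q2 with q2 | q2 | q2 | q2 | q2 | q2 | q2 | q2 <;>
        rw [q1, q2] at hne ⊢ <;>
        first
          | exact absurd rfl hne
          | assumption
          | (apply r; assumption)
    have hsub : pal c ({x, x', w, w', y, y', z, z'} : Finset V) ⊆ S := by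
      intro i hi
      unfold pal at hi
      obtain ⟨p, hp, rfl⟩ := mem_image.1 hi
      obtain ⟨hp1, hp2⟩ := mem_filter.1 hp
      obtain ⟨q1, q2⟩ := mem_product.1 hp1
      simp only [mem_insert, mem_singleton] at q1 q2
      exact key _ _ q1 q2 hp2
    exact (card_le_card hsub).trans card_le_six

end Pool.Agent.EGF.H38
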