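import Pool.Agent.EGF.Stmts

/-! EGF, row RND: one round (helper38). -/

set_option autoImplicit false

open Finset

namespace Pool.Agent.EGF.H38

open Pool.Agent.EGF

theorem flat_mono {V : Type} [DecidableEq V] {k : ℕ} {c : V → V → Fin k} {U W : Finset V} {s : ℕ}
    {Λ : ℝ} (h : Flat c U s Λ) (hW : W ⊆ U) : Flat c W s Λ :=
  fun S hS hs => h S (hS.trans hW) hs

theorem maj_sub {V : Type} [DecidableEq V] {k : ℕ} {c : V → V → Fin k} {W : Finset V} {t : ℝ} :
    maj c W t ⊆ W := by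
  unfold maj
  exact filter_subset _ _

theorem mem_maj {V : Type} [DecidableEq V] {k : ℕ} {c : V → V → Fin k} {W : Finset V} {t : ℝ}
    {x : V} (h : x ∈ maj c W t) : ∃ a, t * W.card ≤ ((nb c W a x).card : ℝ) := by
  unfold maj at h
  exact (mem_filter.1 h).2

/-- splitting a set of common neighbours -/
theorem split {V : Type} [DecidableEq V] {k : ℕ} (c : V → V → Fin k) (C : Finset (Fin k))
    (A1 N : Finset V) (y y' : V) {η lam : ℝ} (hη : 0 < η) (hl : lam ≤ η / 4) (hA1 : A1.Nonempty)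
    (hN : N ⊆ A1) (hc : η * A1.card ≤ (N.card : ℝ))
    (h1 : ((A1.filter fun z => c y z ∉ C).card : ℝ) ≤ lam * A1.card)
    (h2 : ((A1.filter fun z => c y' z ∉ C).card : ℝ) ≤ lam * A1.card) :
    ∃ A2 ⊆ N, ∃ p ∈ C, ∃ q ∈ C, (∀ z ∈ A2, c y z = p ∧ c y' z = q) ∧
      η / (2 * (C.card : ℝ) ^ 2) * A1.card ≤ (A2.card : ℝ) := by
  have hA0 : (0 : ℝ) < A1.card := by exact_mod_cast hA1.card_pos
  set N' := N.filter fun z => c y z ∈ C ∧ c y' z ∈ C with hN'
  have hsub : N ⊆ N' ∪ ((A1.filter fun z => c y z ∉ C) ∪ (A1.filter fun z => c y' z ∉ C)) := by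
    intro z hz
    simp only [mem_union, mem_filter, hN']
    have := hN hz
    tauto
  have hcard : (N.card : ℝ) ≤ N'.card + (lam * A1.card + lam * A1.card) := by
    have e1 : N.card ≤ N'.card + ((A1.filter fun z => c y z ∉ C).card +
        (A1.filter fun z => c y' z ∉ C).card) :=
      (card_le_card hsub).trans ((card_union_le _ _).trans (by
        have := card_union_le (A1.filter fun z => c y z ∉ C) (A1.filter fun z => c y' z ∉ C)
        omega))
    have e2 : (N.card : ℝ) ≤ N'.card + (((A1.filter fun z => c y z ∉ C).card : ℝ) +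
        ((A1.filter fun z => c y' z ∉ C).card : ℝ)) := by exact_mod_cast e1
    linarith
  have hN1 : η / 2 * A1.card ≤ (N'.card : ℝ) := by nlinarith
  have hN0 : (0 : ℝ) < N'.card := lt_of_lt_of_le (by positivity) hN1
  have hmap : ∀ z ∈ N', (c y z, c y' z) ∈ C ×ˢ C := by
    intro z hz
    have := (mem_filter.1 hz).2
    exact mem_product.2 this
  have hne : N'.Nonempty := card_pos.1 (by exact_mod_cast hN0)
  have hCC : (C ×ˢ C).Nonempty := by
    obtain ⟨z, hz⟩ := hne
    exact ⟨_, hmap z hz⟩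
  have hCp : (0 : ℝ) < C.card := by
    obtain ⟨⟨p, q⟩, hpq⟩ := hCC
    have : C.Nonempty := ⟨p, (mem_product.1 hpq).1⟩
    exact_mod_cast this.card_pos
  have hsum := card_eq_sum_card_fiberwise (f := fun z => (c y z, c y' z)) (s := N') (t := C ×ˢ C)
    (fun z hz => hmap z hz)
  obtain ⟨⟨p, q⟩, hpq, hle⟩ : ∃ pq ∈ C ×ˢ C,
      (N'.card : ℝ) / (C.card : ℝ) ^ 2 ≤ ((N'.filter fun z => (c y z, c y' z) = pq).card : ℝ) := by
    by_contra hcon
    push Not at hcon
    have h3 : ∑ b ∈ C ×ˢ C, ((N'.filter fun z => (c y z, c y' z) = b).card : ℝ) <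
        ∑ _b ∈ C ×ˢ C, (N'.card : ℝ) / (C.card : ℝ) ^ 2 := sum_lt_sum_of_nonempty hCC hcon
    rw [sum_const, card_product, nsmul_eq_mul] at h3
    have h4 : (N'.card : ℝ) = ∑ b ∈ C ×ˢ C, ((N'.filter fun z => (c y z, c y' z) = b).card : ℝ) := by
      exact_mod_cast hsum
    rw [← h4] at h3
    have h5 : ((C.card * C.card : ℕ) : ℝ) * ((N'.card : ℝ) / (C.card : ℝ) ^ 2) = N'.card := by
      push_cast
      field_simp
    rw [h5] at h3
    exact lt_irrefl _ h3
  refine ⟨N'.filter fun z => (c y z, c y' z) = (p, q), (filter_subset _ _).trans (filter_subset _ _),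
    p, (mem_product.1 hpq).1, q, (mem_product.1 hpq).2, ?_, ?_⟩
  · intro z hz
    have := (mem_filter.1 hz).2
    exact ⟨congrArg Prod.fst this, congrArg Prod.snd this⟩
  · refine le_trans ?_ hle
    rw [div_mul_eq_mul_div, div_le_div_iff₀ (by positivity) (by positivity)]
    have : η * A1.card ≤ 2 * (N'.card : ℝ) := by linarith
    have hC2 : (0 : ℝ) ≤ (C.card : ℝ) ^ 2 := by positivity
    nlinarith

theorem log_card_le {n m : ℕ} {τ D : ℝ} (hτ : 0 < τ) (hm : 0 < m) (h : τ * m ≤ n)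
    (hD : Real.log (1 / τ) ≤ D) : Real.log m - D ≤ Real.log n := by
  have hm' : (0 : ℝ) < m := by exact_mod_cast hm
  have h1 : Real.log (τ * m) ≤ Real.log n := Real.log_le_log (by positivity) h
  rw [Real.log_mul hτ.ne' hm'.ne'] at h1
  rw [one_div, Real.log_inv] at hD
  linarith

theorem rnd (hMaj : MajStmt) (hTyp : TypStmt) (hXse : XseStmt) (hYse : YseStmt) : RndStmt := by
  intro V _ k c C U A B A1 B1 s L θ lam ρ σ R hsym hRec hθ hlog hL hs hflat hAU hBU hA hB hreg hlam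
    hlam1 hlam2 h48 hρ hσ hσ1 h16 hR hbig hA1 hB1 hsA hsB
  -- sizes
  have hs1 : (33 : ℝ) ≤ s := by linarith
  have hlk : 0 ≤ Real.log k := Real.log_natCast_nonneg k
  have hls : 0 ≤ Real.log s := Real.log_natCast_nonneg s
  have hlσ : 0 ≤ Real.log (1 / σ) := Real.log_nonneg (by rw [le_div_iff₀ hσ]; linarith)
  have hlU : 8 * 128 ≤ Real.log U.card := by linarith
  have hs2 : 2 ≤ s := by
    have : (2 : ℝ) ≤ s := by linarith
    exact_mod_cast this
  have pos_of_log : ∀ n : ℕ, 0 < Real.log n → 0 < n := by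
    intro n hn
    rcases Nat.eq_zero_or_pos n with h | h
    · rw [h] at hn; simp at hn
    · exact h
  have hAp : 0 < A.card := pos_of_log _ (by linarith)
  have hBp : 0 < B.card := pos_of_log _ (by linarith)
  have hAr : (0 : ℝ) < A.card := by exact_mod_cast hAp
  have hBr : (0 : ℝ) < B.card := by exact_mod_cast hBp
  have hA1l : Real.log A.card - Real.log (1 / σ) ≤ Real.log A1.card :=
    log_card_le hσ hAp hsA le_rfl
  have hB1l : Real.log B.card - Real.log (1 / σ) ≤ Real.log B1.card :=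
    log_card_le hσ hBp hsB le_rfl
  have big8 : ∀ n : ℕ, 8 ≤ Real.log n → 8 ≤ n := by
    intro n hn
    have hn0 := pos_of_log n (by linarith)
    have h1 : Real.exp 8 ≤ n := by
      rw [← Real.exp_log (show (0 : ℝ) < n by exact_mod_cast hn0)]
      exact Real.exp_le_exp.2 hn
    have h2 : (8 : ℝ) + 1 ≤ Real.exp 8 := Real.add_one_le_exp 8
    have h3 : (8 : ℝ) ≤ n := by linarith
    exact_mod_cast h3
  have hA8 : 8 ≤ A1.card := big8 _ (by linarith)
  have hB8 : 8 ≤ B1.card := big8 _ (by linarith)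
  have hA1r : (0 : ℝ) < A1.card := by
    have : 0 < A1.card := by omega
    exact_mod_cast this
  have hB1r : (0 : ℝ) < B1.card := by
    have : 0 < B1.card := by omega
    exact_mod_cast this
  have hA1U := hA1.trans hAU
  have hB1U := hB1.trans hBU
  -- (1) MAJ
  set t : ℝ := 1 / (s : ℝ) ^ 2 with ht
  set A0 := maj c A1 t with hA0
  set B0 := maj c B1 t with hB0
  have hA0c : (A1.card : ℝ) ≤ 4 * A0.card :=
    hMaj V k c A1 s L hsym (flat_mono hflat hA1U) hL hs hA8
  have hB0c : (B1.card : ℝ) ≤ 4 * B0.card :=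
    hMaj V k c B1 s L hsym (flat_mono hflat hB1U) hL hs hB8
  have hA01 : A0 ⊆ A1 := maj_sub
  have hB01 : B0 ⊆ B1 := maj_sub
  have hB0r : (0 : ℝ) < B0.card := by linarith
  -- (2) typical vertices
  have hρσ : 16 * ρ ≤ σ := by nlinarith
  have hρA : ρ * A.card ≤ (A1.card : ℝ) := by nlinarith
  have hρB : ρ * B.card ≤ (B1.card : ℝ) := by nlinarith
  have hρB0 : ρ * B.card ≤ (B0.card : ℝ) := by nlinarith
  obtain ⟨Z1, hZ1, hZ1c, hZ1t⟩ := (hTyp V k c C A B A1 B1 lam ρ hreg hρ.le hA1 hB1).1 hρB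
  obtain ⟨Z2, hZ2, hZ2c, hZ2t⟩ := (hTyp V k c C A B A1 B0 lam ρ hreg hρ.le hA1
    (hB01.trans hB1)).1 hρB0
  obtain ⟨Z3, hZ3, hZ3c, hZ3t⟩ := (hTyp V k c C A B A1 B0 lam ρ hreg hρ.le hA1
    (hB01.trans hB1)).2 hρA
  set X0 := A0 \ (Z1 ∪ Z2) with hX0
  have hX0A : X0 ⊆ A1 := sdiff_subset.trans hA01
  have hlA : lam * σ * A.card ≤ A1.card := by
    calc lam * σ * A.card ≤ 1 * σ * A.card := by gcongr; linarith
      _ ≤ A1.card := by linarith
  have hX0c : 1 / 8 * (A1.card : ℝ) ≤ X0.card := by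
    have e1 : A0.card ≤ X0.card + (Z1.card + Z2.card) := by
      have h1 : A0 ⊆ X0 ∪ (Z1 ∪ Z2) := by
        intro z hz
        by_cases h : z ∈ Z1 ∪ Z2
        · exact mem_union_right _ h
        · exact mem_union_left _ (mem_sdiff.2 ⟨hz, h⟩)
      have h2 := card_union_le X0 (Z1 ∪ Z2)
      have h3 := card_union_le Z1 Z2
      have h4 := card_le_card h1
      omega
    have e2 : (A0.card : ℝ) ≤ X0.card + (Z1.card + Z2.card) := by exact_mod_cast e1
    have e3 : 16 * (ρ * A.card) ≤ lam * σ * A.card := by nlinarith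
    linarith
  have hX0n : X0.Nonempty := by
    rw [← card_pos]
    have : (0 : ℝ) < X0.card := by linarith
    exact_mod_cast this
  set E := R + Real.log (1 / σ) + 3 with hE
  have log8 : Real.log 8 ≤ 3 := by
    have : Real.log 8 = 3 * Real.log 2 := by
      rw [show (8 : ℝ) = 2 ^ 3 by norm_num, Real.log_pow]; norm_num
    rw [this]
    have := Real.log_two_lt_d9
    linarith
  have log4 : Real.log 4 ≤ 3 := by
    have : Real.log 4 = 2 * Real.log 2 := by
      rw [show (4 : ℝ) = 2 ^ 2 by norm_num, Real.log_pow]; norm_num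
    rw [this]
    have := Real.log_two_lt_d9
    linarith
  have hX0l : Real.log U.card - E ≤ Real.log X0.card := by
    have h1 := log_card_le (τ := 1 / 8) (D := 3) (by norm_num) (show 0 < A1.card by omega) hX0c
      (by norm_num; exact log8)
    linarith
  have hEb : E + Real.log k + 2 * Real.log s + 4 ≤ Real.log U.card / 128 := by linarith
  obtain ⟨X, hX, a, hXp, hXn⟩ := hXse V k c U A1 X0 θ E s hRec hθ hlog hs2 hA1U hX0A hX0n
    (fun x hx => mem_maj (mem_sdiff.1 hx).1) hX0l hEb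
  -- the pairs
  have hpair : ∀ i : Fin k, ∃ p : V × V, i ∈ pal c X → p.1 ∈ X ∧ p.2 ∈ X ∧ p.1 ≠ p.2 ∧
      c p.1 p.2 = i := by
    intro i
    by_cases hi : i ∈ pal c X
    · unfold pal at hi
      obtain ⟨p, hp, hpi⟩ := mem_image.1 hi
      have hp2 := mem_filter.1 hp
      have hp3 := mem_product.1 hp2.1
      exact ⟨p, fun _ => ⟨hp3.1, hp3.2, hp2.2, hpi⟩⟩
    · obtain ⟨z, hz⟩ := hX0n
      exact ⟨(z, z), fun h => absurd h hi⟩
  choose P hP using hpair
  classical
  -- (3)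
  set S : Fin k → Finset V := fun i => B0.filter fun y => c (P i).1 y ∈ C ∧ c (P i).2 y ∈ C ∧
    ((A1.filter fun x => c x y ∉ C).card : ℝ) ≤ lam * A1.card with hS
  have hXmem : ∀ x ∈ X, x ∈ A1 ∧ ((B1.filter fun y => c x y ∉ C).card : ℝ) ≤ lam * B1.card ∧
      ((B0.filter fun y => c x y ∉ C).card : ℝ) ≤ lam * B0.card := by
    intro x hx
    have h1 := mem_sdiff.1 (hX hx)
    have h2 := hA01 h1.1
    have h3 : x ∉ Z1 ∧ x ∉ Z2 := by
      constructor
      · exact fun h => h1.2 (mem_union_left _ h)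
      · exact fun h => h1.2 (mem_union_right _ h)
    exact ⟨h2, hZ1t x (mem_sdiff.2 ⟨h2, h3.1⟩), hZ2t x (mem_sdiff.2 ⟨h2, h3.2⟩)⟩
  have hpalU : pal c X ⊆ pal c U := by
    unfold pal
    refine image_subset_image (filter_subset_filter _ ?_)
    have : X ⊆ U := hX.trans (hX0A.trans hA1U)
    exact product_subset_product this this
  have hSc : ∀ i ∈ pal c X, (1 - 3 * lam) * B0.card ≤ ((B0 ∩ S i).card : ℝ) := by
    intro i hi
    obtain ⟨p1, p2, p3, p4⟩ := hP i hi
    obtain ⟨-, -, q1⟩ := hXmem _ p1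
    obtain ⟨-, -, q2⟩ := hXmem _ p2
    have hsub : B0 ⊆ (B0 ∩ S i) ∪ (((B0.filter fun y => c (P i).1 y ∉ C) ∪
        (B0.filter fun y => c (P i).2 y ∉ C)) ∪ Z3) := by
      intro y hy
      by_cases h3 : y ∈ Z3
      · simp [h3]
      · have h4 := hZ3t y (mem_sdiff.2 ⟨hy, h3⟩)
        simp only [mem_union, mem_inter, hS, mem_filter, hy, true_and]
        tauto
    have e1 := card_le_card hsub
    have e2 := card_union_le (B0 ∩ S i) (((B0.filter fun y => c (P i).1 y ∉ C) ∪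
        (B0.filter fun y => c (P i).2 y ∉ C)) ∪ Z3)
    have e3 := card_union_le ((B0.filter fun y => c (P i).1 y ∉ C) ∪
        (B0.filter fun y => c (P i).2 y ∉ C)) Z3
    have e4 := card_union_le (B0.filter fun y => c (P i).1 y ∉ C)
        (B0.filter fun y => c (P i).2 y ∉ C)
    have e5 : B0.card ≤ (B0 ∩ S i).card + (((B0.filter fun y => c (P i).1 y ∉ C).card +
        (B0.filter fun y => c (P i).2 y ∉ C).card) + Z3.card) := by omega
    have e6 : (B0.card : ℝ) ≤ ((B0 ∩ S i).card : ℝ) + (((B0.filter fun y => c (P i).1 y ∉ C).card +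
        ((B0.filter fun y => c (P i).2 y ∉ C).card : ℝ)) + Z3.card) := by exact_mod_cast e5
    have e7 : 16 * (ρ * B.card) ≤ lam * (σ * B.card) := by nlinarith
    have e8 : lam * (σ * B.card) ≤ lam * (4 * B0.card) :=
      mul_le_mul_of_nonneg_left (by linarith) hlam.le
    nlinarith
  have hB0l : Real.log U.card - E ≤ Real.log B0.card := by
    have h1 := log_card_le (τ := 1 / 4) (D := 3) (n := B0.card) (m := B1.card) (by norm_num)
      (show 0 < B1.card by omega) (by linarith) (by norm_num; exact log4)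
    linarith
  have hB0n : B0.Nonempty := card_pos.1 (by exact_mod_cast hB0r)
  obtain ⟨i, hi, b, y, hy, y', hy', hyy, hci, hyS, hyS', hYn⟩ := hYse V k c U B1 B0 θ E lam s
    (pal c X) S hRec hθ hlog hs2 hB1U hB01 hB0n (fun y hy => mem_maj hy) hB0l hEb hlam hlam1 h48
    hpalU hXp hSc
  obtain ⟨p1, p2, p3, p4⟩ := hP i hi
  obtain ⟨r1, r2, -⟩ := hXmem _ p1
  obtain ⟨r1', r2', -⟩ := hXmem _ p2
  set x := (P i).1
  set x' := (P i).2
  obtain ⟨u1, u2, u3, u4⟩ := mem_filter.1 hyS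
  obtain ⟨v1, v2, v3, v4⟩ := mem_filter.1 hyS'
  -- (4)
  have hη : (0 : ℝ) < t ^ 257 := by
    have : (0 : ℝ) < s := by linarith
    positivity
  have hA1n : A1.Nonempty := card_pos.1 (by omega)
  have hB1n : B1.Nonempty := card_pos.1 (by omega)
  have hsw : ∀ y : V, (A1.filter fun z => c y z ∉ C) = (A1.filter fun z => c z y ∉ C) := by
    intro y
    refine filter_congr fun z _ => ?_
    rw [hsym y z]
  obtain ⟨A2, hA2, p, hp, q, hq, hA2c, hA2n⟩ := split c C A1 (nb2 c A1 a x x') y y' hη hlam2 hA1n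
    (filter_subset _ _) (hXn x p1 x' p2 p3) (by rw [hsw]; exact u4) (by rw [hsw]; exact v4)
  obtain ⟨B2, hB2, p', hp', q', hq', hB2c, hB2n⟩ := split c C B1 (nb2 c B1 b y y') x x' hη hlam2
    hB1n (filter_subset _ _) hYn r2 r2'
  refine ⟨A2, B2, x, x', y, y', a, b, ![c x y, c x y', c x' y, c x' y', p, q, p', q'], ?_, hA2n,
    hB2n⟩
  refine ⟨r1, r1', hB01 hy, hB01 hy', p3, hyy, p4.trans hci.symm, rfl, rfl, rfl, rfl, ?_,
    hA2.trans (filter_subset _ _), hB2.trans (filter_subset _ _), ?_, ?_⟩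
  · intro j
    fin_cases j
    · exact u2
    · exact v2
    · exact u3
    · exact v3
    · exact hp
    · exact hq
    · exact hp'
    · exact hq'
  · intro z hz
    obtain ⟨-, z1, z2, z3, z4⟩ := mem_filter.1 (hA2 hz)
    obtain ⟨z5, z6⟩ := hA2c z hz
    exact ⟨z1, z2, z3, z4, z5, z6⟩
  · intro z hz
    obtain ⟨-, z1, z2, z3, z4⟩ := mem_filter.1 (hB2 hz)
    obtain ⟨z5, z6⟩ := hB2c z hz
    exact ⟨z1, z2, z3, z4, z5, z6⟩

end Pool.Agent.EGF.H38
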