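import Pool.Agent.EGF.StmtsV

/-!
# Squad EGF, row RO2
-/

set_option autoImplicit false

open Finset

namespace Pool.Agent.EGF.H38

/-- Row RO2. -/
theorem ro2 (hRBD : RbdStmt) : Ro2Stmt := by
  intro V _ k c U A A' q T B S κ hS hκ hκ8 hrec hB hAU hA hA'U hA' hl hl' hs
  classical
  have h1 := hRBD V k c U A q T B S κ hS hκ hκ8 hrec hB hAU hA hl hs
    ((spt c q U T).filter fun g => ¬ Rb2 c q A g T κ) (filter_subset _ _)
    (fun g hg => (mem_filter.1 hg).2)
  have h2 := hRBD V k c U A' q T B S κ hS hκ hκ8 hrec hB hA'U hA' hl' hs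
    ((spt c q U T).filter fun g => ¬ Rb2 c q A' g T κ) (filter_subset _ _)
    (fun g hg => (mem_filter.1 hg).2)
  by_contra hcon
  push Not at hcon
  have h3 : spt c q U T ⊆ ((spt c q U T).filter fun g => ¬ Rb2 c q A g T κ) ∪
      ((spt c q U T).filter fun g => ¬ Rb2 c q A' g T κ) := by
    intro g hg
    rw [mem_union, mem_filter, mem_filter]
    by_cases h : Rb2 c q A g T κ
    · exact Or.inr ⟨hg, hcon g hg h⟩
    · exact Or.inl ⟨hg, h⟩
  have h4 := (card_le_card h3).trans (card_union_le _ _)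
  omega

end Pool.Agent.EGF.H38
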