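import Pool.Agent.EGF.StmtsU

/-!
# Squad EGF, row UBB
-/

set_option autoImplicit false

open Finset

namespace Pool.Agent.EGF.H38

private theorem ubb_cnt {X : Type} [DecidableEq X] (D : Finset (X × X)) (P : Finset X)
    (W : X → Finset X) (h : ∀ p ∈ D, p.1 ∈ P ∧ p.2 ∈ W p.1) :
    D.card ≤ ∑ x ∈ P, (W x).card := by
  have h1 : D ⊆ P.biUnion (fun x => (W x).image (Prod.mk x)) := by
    intro p hp
    obtain ⟨h2, h3⟩ := h p hp
    rw [mem_biUnion]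
    exact ⟨p.1, h2, mem_image.2 ⟨p.2, h3, rfl⟩⟩
  exact (card_le_card h1).trans (card_biUnion_le.trans (sum_le_sum fun x _ => card_image_le))

/-- Row UBB. -/
theorem ubb (hUPM : UpmStmt) : UbbStmt := by
  intro X Y _ _ A P A1 B N f E d K T hf hE hd hd2 hsat hsy S hS ν α hα hν
  have hT : (0 : ℝ) < T := by exact_mod_cast hsy.pos
  have hf0 : ∀ a b, 0 ≤ f a b := fun a b => by
    rcases hf a b with h | h <;> rw [h]
    exact zero_le_one
  have hf1 : ∀ a b, f a b ≤ 1 := fun a b => by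
    rcases hf a b with h | h <;> rw [h]
    exact zero_le_one
  set n : ℝ := ∑ b ∈ B, ν b with hn
  have hn0 : 0 ≤ n := sum_nonneg fun b hb => (hν b hb).1
  set nx : X → ℝ := fun x => ∑ b ∈ B, ν b * f x b with hnx
  set Bad1 : Finset X := P.filter (fun x => d * n + E * α < nx x) with hB1
  set Bad2 : X → Finset X := fun x =>
    A1.filter (fun w => d * nx x + E * α < ∑ b ∈ B, (ν b * f x b) * f w b) with hB2
  have hPA : P ⊆ A := hsy.PB
  have hA1A : A1 ⊆ A := hsy.B1B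
  have hc1 : (Bad1.card : ℝ) < E :=
    hUPM X Y A B f E d hf hE hd hsat ν α hα hν Bad1 ((filter_subset _ _).trans hPA)
      (fun a ha => (mem_filter.1 ha).2)
  have hc2 : ∀ x, ((Bad2 x).card : ℝ) < E := by
    intro x
    refine hUPM X Y A B f E d hf hE hd hsat (fun b => ν b * f x b) α hα ?_ (Bad2 x)
      ((filter_subset _ _).trans hA1A) (fun a ha => (mem_filter.1 ha).2)
    intro b hb
    refine ⟨mul_nonneg (hν b hb).1 (hf0 x b), ?_⟩
    exact (mul_le_of_le_one_right (hν b hb).1 (hf1 x b)).trans (hν b hb).2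
  have hedg : ∀ p ∈ edg P A1 N, p.1 ∈ P ∧ p.2 ∈ A1 ∧ p.2 ∈ N p.1 := by
    intro p hp
    unfold edg at hp
    obtain ⟨h1, h2⟩ := mem_filter.1 hp
    obtain ⟨h3, h4⟩ := mem_product.1 h1
    exact ⟨h3, h4, h2⟩
  have hcS : (S.card : ℝ) ≤ (T : ℝ) ^ 2 := by
    have h1 : S.card ≤ ∑ x ∈ P, (N x).card :=
      ubb_cnt S P N fun p hp => ⟨(hedg p (hS hp)).1, (hedg p (hS hp)).2.2⟩
    rw [sum_congr rfl fun x hx => hsy.cN x hx, sum_const, hsy.cP, smul_eq_mul] at h1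
    calc (S.card : ℝ) ≤ ((T * T : ℕ) : ℝ) := by exact_mod_cast h1
      _ = (T : ℝ) ^ 2 := by push_cast; ring
  -- the bad pairs
  set Bd : Finset (X × X) := S.filter (fun p => p.1 ∈ Bad1 ∨ p.2 ∈ Bad2 p.1) with hBd
  have hcBd : (Bd.card : ℝ) ≤ 2 * E * T := by
    have h1 : Bd = S.filter (fun p => p.1 ∈ Bad1) ∪ S.filter (fun p => p.2 ∈ Bad2 p.1) := by
      rw [hBd, filter_or]
    have h2 : (S.filter (fun p => p.1 ∈ Bad1)).card ≤ ∑ x ∈ Bad1, (N x).card :=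
      ubb_cnt _ _ _ fun p hp => ⟨(mem_filter.1 hp).2,
        (hedg p (hS (mem_filter.1 hp).1)).2.2⟩
    have h3 : (S.filter (fun p => p.2 ∈ Bad2 p.1)).card ≤ ∑ x ∈ P, (Bad2 x).card :=
      ubb_cnt _ _ _ fun p hp => ⟨(hedg p (hS (mem_filter.1 hp).1)).1, (mem_filter.1 hp).2⟩
    have h4 : ∑ x ∈ Bad1, (N x).card = Bad1.card * T := by
      rw [sum_congr rfl fun x hx => hsy.cN x (mem_filter.1 hx).1, sum_const, smul_eq_mul]
    have h5 : ((S.filter (fun p => p.1 ∈ Bad1)).card : ℝ) ≤ E * T := by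
      calc ((S.filter (fun p => p.1 ∈ Bad1)).card : ℝ) ≤ ((Bad1.card * T : ℕ) : ℝ) := by
            rw [← h4]
            exact_mod_cast h2
        _ = (Bad1.card : ℝ) * T := by push_cast; ring
        _ ≤ E * T := mul_le_mul_of_nonneg_right hc1.le hT.le
    have h6 : ((S.filter (fun p => p.2 ∈ Bad2 p.1)).card : ℝ) ≤ E * T := by
      calc ((S.filter (fun p => p.2 ∈ Bad2 p.1)).card : ℝ)
          ≤ ((∑ x ∈ P, (Bad2 x).card : ℕ) : ℝ) := by exact_mod_cast h3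
        _ = ∑ x ∈ P, ((Bad2 x).card : ℝ) := by push_cast; rfl
        _ ≤ ∑ x ∈ P, E := sum_le_sum fun x _ => (hc2 x).le
        _ = E * T := by rw [sum_const, hsy.cP, nsmul_eq_mul, mul_comm]
    have h7 : (Bd.card : ℝ) ≤ ((S.filter (fun p => p.1 ∈ Bad1)).card : ℝ) +
        ((S.filter (fun p => p.2 ∈ Bad2 p.1)).card : ℝ) := by
      rw [h1]
      exact_mod_cast card_union_le _ _
    linarith
  -- the inner sums
  have hin : ∀ p ∈ S, ∑ b ∈ B, ν b * (f p.1 b * f p.2 b) ≤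
      (d ^ 2 * n + 3 * E * α) + if p.1 ∈ Bad1 ∨ p.2 ∈ Bad2 p.1 then n else 0 := by
    intro p hp
    have hnn : 0 ≤ d ^ 2 * n + 3 * E * α := by positivity
    split_ifs with hb
    · have h1 : ∑ b ∈ B, ν b * (f p.1 b * f p.2 b) ≤ n := by
        refine sum_le_sum fun b hb => mul_le_of_le_one_right (hν b hb).1 ?_
        exact mul_le_one₀ (hf1 _ _) (hf0 _ _) (hf1 _ _)
      linarith
    · push Not at hb
      obtain ⟨h1, h2⟩ := hb
      obtain ⟨h3, h4, -⟩ := hedg p (hS hp)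
      have h5 : nx p.1 ≤ d * n + E * α := by
        by_contra h
        exact h1 (mem_filter.2 ⟨h3, not_le.1 h⟩)
      have h6 : ∑ b ∈ B, (ν b * f p.1 b) * f p.2 b ≤ d * nx p.1 + E * α := by
        by_contra h
        exact h2 (mem_filter.2 ⟨h4, not_le.1 h⟩)
      have h7 : ∑ b ∈ B, ν b * (f p.1 b * f p.2 b) = ∑ b ∈ B, (ν b * f p.1 b) * f p.2 b :=
        sum_congr rfl fun b _ => by ring
      have h8 : d * nx p.1 ≤ d * (d * n + E * α) := mul_le_mul_of_nonneg_left h5 hd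
      have h9 : d * (E * α) ≤ 2 * (E * α) :=
        mul_le_mul_of_nonneg_right hd2 (mul_nonneg hE.le hα)
      rw [h7]
      nlinarith
  have hT2 : (0 : ℝ) < (T : ℝ) ^ 2 := by positivity
  have hsum : ∑ p ∈ S, 1 / (T : ℝ) ^ 2 * ∑ b ∈ B, ν b * (f p.1 b * f p.2 b) ≤
      ∑ p ∈ S, 1 / (T : ℝ) ^ 2 * ((d ^ 2 * n + 3 * E * α) +
        if p.1 ∈ Bad1 ∨ p.2 ∈ Bad2 p.1 then n else 0) :=
    sum_le_sum fun p hp => mul_le_mul_of_nonneg_left (hin p hp) (by positivity)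
  refine hsum.trans ?_
  have h1 : ∑ p ∈ S, 1 / (T : ℝ) ^ 2 * ((d ^ 2 * n + 3 * E * α) +
        if p.1 ∈ Bad1 ∨ p.2 ∈ Bad2 p.1 then n else 0) =
      (S.card : ℝ) / (T : ℝ) ^ 2 * (d ^ 2 * n + 3 * E * α) +
        (Bd.card : ℝ) / (T : ℝ) ^ 2 * n := by
    rw [← mul_sum, sum_add_distrib, sum_const, nsmul_eq_mul, ← sum_filter, sum_const,
      nsmul_eq_mul]
    ring
  rw [h1, sum_const, nsmul_eq_mul]
  have h2 : (S.card : ℝ) / (T : ℝ) ^ 2 ≤ 1 := (div_le_one hT2).2 hcS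
  have h3 : (S.card : ℝ) / (T : ℝ) ^ 2 * (3 * E * α) ≤ 3 * E * α :=
    mul_le_of_le_one_left (by positivity) h2
  have h4 : (Bd.card : ℝ) / (T : ℝ) ^ 2 * n ≤ 2 * E / T * n := by
    refine mul_le_mul_of_nonneg_right ?_ hn0
    rw [div_le_div_iff₀ hT2 hT]
    calc (Bd.card : ℝ) * T ≤ (2 * E * T) * T := mul_le_mul_of_nonneg_right hcBd hT.le
      _ = 2 * E * (T : ℝ) ^ 2 := by ring
  calc (S.card : ℝ) / (T : ℝ) ^ 2 * (d ^ 2 * n + 3 * E * α) + (Bd.card : ℝ) / (T : ℝ) ^ 2 * n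
      = d ^ 2 * (n * ((S.card : ℝ) * (1 / (T : ℝ) ^ 2))) +
        (S.card : ℝ) / (T : ℝ) ^ 2 * (3 * E * α) + (Bd.card : ℝ) / (T : ℝ) ^ 2 * n := by ring
    _ ≤ d ^ 2 * (n * ((S.card : ℝ) * (1 / (T : ℝ) ^ 2))) + 3 * E * α + 2 * E / T * n := by
        linarith

end Pool.Agent.EGF.H38
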